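import Pool.Agent.U838.FT.Refl
import Pool.Agent.Q111.FT.Schur

/-!
# Job FACE of project FT
-/

set_option autoImplicit false

namespace Pool.Agent.U838.FT

open Pool.Agent.Q169.FT
open Pool.Agent.Q169.ZD (par)

noncomputable section

variable {E : ℕ → Type} {bd : ∀ i, E (i + 1) → (E i →₀ ℤ)}
  {T : Type} {M : CoxeterMatrix T} {K : Type} [Group K] {cs : CoxeterSystem M K}
  {B C : ∀ i, Set (E i)} {mir : ∀ i, E i → Set T} {κ : ∀ i, E i → K → E i}

theorem isSub_fc (h : Refl bd cs B C mir κ) (I : Set T) : IsSub bd (fc C mir I) :=
  fun i e f he hf => ⟨h.sub i e f he.1 hf, he.2.trans (h.face i e he.1 f hf)⟩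

theorem isSub_un (h : Refl bd cs B C mir κ) {A : ∀ i, Set (E i)} (hA : IsSub bd A)
    (hAC : ∀ i, A i ⊆ C i) (J : Set T) : IsSub bd (un A mir J) := by
  rintro i e f ⟨he, t, ht, htJ⟩ hf
  exact ⟨hA i e f he hf, t, h.face i e (hAC _ he) f hf ht, htJ⟩

theorem isSub_inh {A : ∀ i, Set (E i)} (h : Inh bd A) : IsSub bd A := by
  induction h with
  | base => exact fun _ _ _ _ _ => trivial
  | face cs _ hR I _ => exact isSub_fc hR I
  | retract _ hr _ => exact hr.sub
  | inter _ _ _ h1 h2 _ => exact fun i e f he hf => ⟨h1 i e f he.1 hf, h2 i e f he.2 hf⟩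

theorem face_ex (hG : Good bd) (h : Refl bd cs B C mir κ) (hB : ExS bd B) (I : Set T) :
    ExS bd (fc C mir I) := by
  have hC : ExS bd C := by
    have h1 := refl E bd T M K cs B C mir κ h hB ∅
    have h2 : un C mir (∅ : Set T) = fun _ => (∅ : Set _) := by
      funext i
      ext e
      simp [un]
    rw [h2] at h1
    exact h1
  have key : ∀ (I : Finset T) (J : Set T), ExS bd (un (fc C mir I) mir J) := by
    classical
    intro I
    induction I using Finset.induction_on with
    | empty =>
      intro J
      have h1 : fc C mir ((∅ : Finset T) : Set T) = C := by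
        funext i
        ext e
        simp [fc]
      rw [h1]
      exact seq E bd hG C (un C mir J) h.sub (isSub_un h h.sub (fun _ => subset_rfl) J)
        (fun i e he => he.1) hC (refl E bd T M K cs B C mir κ h hB J)
    | insert s I _ ih =>
      intro J
      have h1 : un (fc C mir ((insert s I : Finset T) : Set T)) mir J =
          fun i => un (fc C mir I) mir {s} i ∩ un (fc C mir I) mir J i := by
        funext i
        ext e
        simp only [un, fc, Set.mem_setOf_eq, Set.mem_inter_iff, Finset.coe_insert,
          Set.insert_subset_iff, Set.inter_singleton_nonempty]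
        tauto
      have h2 : un (fc C mir I) mir ({s} ∪ J) =
          fun i => un (fc C mir I) mir {s} i ∪ un (fc C mir I) mir J i := by
        funext i
        ext e
        simp only [un, fc, Set.mem_setOf_eq, Set.mem_union, Set.inter_union_distrib_left,
          Set.union_nonempty]
        tauto
      have hs : ∀ J, IsSub bd (un (fc C mir I) mir J) := fun J =>
        isSub_un h (isSub_fc h _) (fun i e he => he.1) J
      rw [h1]
      have h3 := ih ({s} ∪ J)
      rw [h2] at h3
      exact mv E bd hG _ _ (hs {s}) (hs J) (ih {s}) (ih J) h3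
  have := h.finite
  have hT : Finite T := Finite.of_injective cs.simple fun a b hab => Q27.Cox.simple_inj cs hab
  rcases I.eq_empty_or_nonempty with rfl | ⟨s, hs⟩
  · have h1 : fc C mir (∅ : Set T) = C := by
      funext i
      ext e
      simp [fc]
    rw [h1]
    exact hC
  · have h1 := key (Set.toFinite I).toFinset {s}
    have h2 : un (fc C mir ((Set.toFinite I).toFinset : Set T)) mir {s} = fc C mir I := by
      funext i
      ext e
      simp only [un, fc, Set.mem_setOf_eq, Set.Finite.coe_toFinset,
        Set.inter_singleton_nonempty]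
      constructor
      · exact fun h => h.1
      · exact fun h => ⟨h, h.2 hs⟩
    rw [h2] at h1
    exact h1

/-- **Job FACE.** -/
theorem face : S_FACE := by
  intro E bd hG hE A hA
  induction hA with
  | base => exact hE
  | face cs _ hR I ih => exact face_ex hG hR ih I
  | @retract B A r m hB hr ih => exact Pool.Agent.Q111.FT.retr E bd B A r m (isSub_inh hB) hr ih
  | inter h1 h2 _ e1 e2 e3 => exact mv E bd hG _ _ (isSub_inh h1) (isSub_inh h2) e1 e2 e3

end

end Pool.Agent.U838.FT
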