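import Pool.Agent.U838.FT.Seq
import Pool.Agent.Q27.Cox.Par

/-!
# Job REFL of project FT
-/

set_option autoImplicit false

open scoped ENNReal

namespace Pool.Agent.U838.FT

open Pool.Agent.Q169.FT
open Pool.Agent.Q169.ZD (par)

noncomputable section

section cox

variable {T : Type} {M : CoxeterMatrix T} {K : Type} [Group K] (cs : CoxeterSystem M K)

theorem par_mono {I J : Set T} (h : I ⊆ J) : par cs I ≤ par cs J :=
  Subgroup.closure_mono (Set.image_mono h)

theorem simple_mem_par {J : Set T} {t : T} (h : t ∈ J) : cs.simple t ∈ par cs J :=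
  Subgroup.subset_closure ⟨t, h, rfl⟩

theorem par_inter_compl {J : Set T} {x : K} (h1 : x ∈ par cs J) (h2 : x ∈ par cs Jᶜ) : x = 1 := by
  have h1' : Q27.Cox.supp cs x ⊆ J := Q27.Cox.mem_P_iff.1 h1
  have h2' : Q27.Cox.supp cs x ⊆ Jᶜ := Q27.Cox.mem_P_iff.1 h2
  have h3 : Q27.Cox.supp cs x = ∅ := by
    rw [Set.eq_empty_iff_forall_notMem]
    intro t ht
    exact h2' ht (h1' ht)
  have h4 := Q27.Cox.mem_P_supp (cs := cs) x
  rw [h3] at h4
  have h5 : Q27.Cox.P cs ∅ = ⊥ := by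
    unfold Q27.Cox.P
    rw [Set.image_empty, Subgroup.closure_empty]
  rw [h5] at h4
  exact Subgroup.mem_bot.1 h4

/-- the sign -/
def sg (w : K) : ℂ := (-1) ^ cs.length w

theorem sg_one : sg cs 1 = 1 := by
  unfold sg
  rw [cs.length_one, pow_zero]

theorem sg_mul_simple (w : K) (t : T) : sg cs (w * cs.simple t) = - sg cs w := by
  unfold sg
  rcases cs.length_mul_simple w t with h | h
  · rw [h, pow_succ]
    ring
  · rw [← h, pow_succ]
    ring

end cox

variable {E : ℕ → Type} {bd : ∀ i, E (i + 1) → (E i →₀ ℤ)}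
  {T : Type} {M : CoxeterMatrix T} {K : Type} [Group K] {cs : CoxeterSystem M K}
  {B C : ∀ i, Set (E i)} {mir : ∀ i, E i → Set T} {κ : ∀ i, E i → K → E i}

open scoped Classical in
/-- the extension of a cochain of the chamber -/
def Ph (C : ∀ i, Set (E i)) (κ : ∀ i, E i → K → E i) (H : Subgroup K) (i : ℕ) (c : E i → ℂ) :
    E i → ℂ := fun x =>
  if h : ∃ e ∈ C i, ∃ w ∈ H, κ i e w = x then c h.choose else 0

theorem inj_left (h : Refl bd cs B C mir κ) (i : ℕ) {e e' : E i} (he : e ∈ C i) (he' : e' ∈ C i)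
    {w w' : K} (hw : κ i e w = κ i e' w') : e = e' :=
  ((h.inj i e he e' he' w w').1 hw).1

theorem Ph_mem (h : Refl bd cs B C mir κ) (H : Subgroup K) (i : ℕ) (c : E i → ℂ) {e : E i}
    (he : e ∈ C i) {w : K} (hw : w ∈ H) : Ph C κ H i c (κ i e w) = c e := by
  have h1 : ∃ e' ∈ C i, ∃ w' ∈ H, κ i e' w' = κ i e w := ⟨e, he, w, hw, rfl⟩
  unfold Ph
  rw [dif_pos h1]
  obtain ⟨h2, w', -, h3⟩ := h1.choose_spec
  rw [inj_left h i h2 he h3]

theorem Ph_notMem (h : Refl bd cs B C mir κ) (J : Set T) (i : ℕ) (c : E i → ℂ)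
    (hc : ∀ e ∈ un C mir J i, c e = 0) {e : E i}
    (he : e ∈ C i) {w : K} (hw : w ∉ par cs Jᶜ) : Ph C κ (par cs Jᶜ) i c (κ i e w) = 0 := by
  unfold Ph
  split_ifs with h1
  · obtain ⟨h2, w', hw', h3⟩ := h1.choose_spec
    have h4 := (h.inj i _ h2 e he w' w).1 h3
    have h5 : (mir i e ∩ J).Nonempty := by
      by_contra h6
      rw [Set.not_nonempty_iff_eq_empty] at h6
      apply hw
      have h7 : mir i e ⊆ Jᶜ := by
        intro t ht ht'
        have : t ∈ mir i e ∩ J := ⟨ht, ht'⟩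
        rw [h6] at this
        exact this
      have h8 := h4.2
      rw [h4.1] at h8
      have h9 := (par cs Jᶜ).mul_mem hw' (par_mono cs h7 h8)
      rwa [mul_inv_cancel_left] at h9
    rw [h4.1]
    exact hc e ⟨he, h5⟩
  · rfl

theorem Ph_outside (h : Refl bd cs B C mir κ) (H : Subgroup K) (i : ℕ) (c : E i → ℂ) {x : E i}
    (hx : x ∉ B i) : Ph C κ H i c x = 0 := by
  unfold Ph
  rw [dif_neg]
  rintro ⟨e, he, w, -, rfl⟩
  exact hx (h.mem i e he w)

theorem cob_smul (h : Refl bd cs B C mir κ) (i : ℕ) (b : E i → ℂ) {e : E (i + 1)}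
    (he : e ∈ C (i + 1)) (w : K) :
    cob bd i b (κ (i + 1) e w) = cob bd i (fun f => b (κ i f w)) e := by
  unfold cob
  rw [h.bd_smul i e he w, Finsupp.sum_mapDomain_index]
  · intro f; simp
  · intro f m n; push_cast; ring

theorem Ph_memlp (h : Refl bd cs B C mir κ) (J : Set T) (i : ℕ) (c : E i → ℂ)
    (hc : ∀ e ∈ un C mir J i, c e = 0) (hm : Memℓp c 2) : Memℓp (Ph C κ (par cs Jᶜ) i c) 2 := by
  have := h.finite
  have h2 : 0 < (2 : ℝ≥0∞).toReal := by norm_num
  rw [memℓp_gen_iff h2] at hm ⊢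
  have h3 : Summable fun p : K × C i => ‖c p.2‖ ^ (2 : ℝ≥0∞).toReal := by
    rw [summable_prod_of_nonneg (fun p => by positivity)]
    exact ⟨fun _ => hm.comp_injective Subtype.val_injective, Summable.of_finite⟩
  choose s hs t ht using h.surj i
  have h4 : Function.Injective (fun x : B i => ((t x x.2, ⟨s x x.2, hs x x.2⟩) : K × C i)) := by
    intro x y hxy
    simp only [Prod.mk.injEq, Subtype.mk.injEq] at hxy
    apply Subtype.ext
    rw [← ht x x.2, ← ht y y.2, hxy.1, hxy.2]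
  have h5 := h3.comp_injective h4
  rw [← Function.Injective.summable_iff (g := (Subtype.val : B i → E i)) Subtype.val_injective]
  · refine Summable.of_nonneg_of_le (fun _ => Real.rpow_nonneg (norm_nonneg _) _)
      (fun x => ?_) h5
    refine Real.rpow_le_rpow (norm_nonneg _) ?_ h2.le
    change ‖Ph C κ (par cs Jᶜ) i c x.1‖ ≤ ‖c (s x x.2)‖
    have h6 : Ph C κ (par cs Jᶜ) i c x.1 = Ph C κ (par cs Jᶜ) i c (κ i (s x x.2) (t x x.2)) := by
      rw [ht x x.2]
    by_cases hw : t x x.2 ∈ par cs Jᶜ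
    · rw [h6, Ph_mem h _ i c (hs x x.2) hw]
    · rw [h6, Ph_notMem h J i c hc (hs x x.2) hw, norm_zero]
      exact norm_nonneg _
  · intro x hx
    have hx' : x ∉ B i := fun h => hx ⟨⟨x, h⟩, rfl⟩
    rw [Ph_outside h _ i c hx', norm_zero, Real.zero_rpow h2.ne']

theorem cob_Ph (h : Refl bd cs B C mir κ) (J : Set T) (i : ℕ) (c : E i → ℂ)
    (hc : ∀ e ∈ un C mir J i, c e = 0) (h0 : ∀ e ∈ C (i + 1), cob bd i c e = 0) :
    ∀ x ∈ B (i + 1), cob bd i (Ph C κ (par cs Jᶜ) i c) x = 0 := by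
  intro x hx
  obtain ⟨e, he, w, rfl⟩ := h.surj (i + 1) x hx
  rw [cob_smul h i _ he w]
  by_cases hw : w ∈ par cs Jᶜ
  · rw [cob_congr bd i _ c e fun f hf => Ph_mem h _ i c (h.sub i e f he hf) hw]
    exact h0 e he
  · exact cob_zero' bd i _ e fun f hf => Ph_notMem h J i c hc (h.sub i e f he hf) hw

/-- the finite set of the elements of a subgroup -/
def KJ (hK : Finite K) (H : Subgroup K) : Finset K := (Set.toFinite (H : Set K)).toFinset

theorem mem_KJ (hK : Finite K) (H : Subgroup K) (u : K) : u ∈ KJ hK H ↔ u ∈ H := by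
  unfold KJ
  rw [Set.Finite.mem_toFinset]
  rfl

/-- the alternating sum -/
def Al (cs : CoxeterSystem M K) (C : ∀ i, Set (E i)) (κ : ∀ i, E i → K → E i) (hK : Finite K)
    (H : Subgroup K) (i : ℕ) (b : E i → ℂ) : E i → ℂ :=
  ∑ u ∈ KJ hK H, sg cs u • (C i).indicator (fun e => b (κ i e u))

theorem Al_apply (hK : Finite K) (H : Subgroup K) (i : ℕ) (b : E i → ℂ) {e : E i} (he : e ∈ C i) :
    Al cs C κ hK H i b e = ∑ u ∈ KJ hK H, sg cs u * b (κ i e u) := by
  unfold Al
  rw [Finset.sum_apply]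
  refine Finset.sum_congr rfl fun u _ => ?_
  rw [Pi.smul_apply, Set.indicator_of_mem he, smul_eq_mul]

theorem Al_memlp (h : Refl bd cs B C mir κ) (H : Subgroup K) (i : ℕ) (b : E i → ℂ)
    (hb : Memℓp b 2) : Memℓp (Al cs C κ h.finite H i b) 2 := by
  have h1 : Al cs C κ h.finite H i b = fun e => ∑ u ∈ KJ h.finite H,
      (sg cs u • (C i).indicator (fun e => b (κ i e u))) e := by
    funext e
    unfold Al
    rw [Finset.sum_apply]
  rw [h1]
  refine Memℓp.finsetSum (E := fun _ : E i => ℂ) _ fun u _ =>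
    Memℓp.const_smul (E := fun _ : E i => ℂ) ?_ _
  have h2 : 0 < (2 : ℝ≥0∞).toReal := by norm_num
  rw [memℓp_gen_iff h2] at hb ⊢
  rw [← Function.Injective.summable_iff (g := (Subtype.val : C i → E i)) Subtype.val_injective]
  · have h3 : Function.Injective (fun e : C i => κ i e.1 u) := by
      intro a a' haa
      exact Subtype.ext (inj_left h i a.2 a'.2 haa)
    have h4 := hb.comp_injective h3
    refine h4.congr fun e => ?_
    change ‖b (κ i e.1 u)‖ ^ _ = ‖(C i).indicator (fun e => b (κ i e u)) e.1‖ ^ _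
    rw [Set.indicator_of_mem e.2]
  · intro x hx
    have hx' : x ∉ C i := fun h => hx ⟨⟨x, h⟩, rfl⟩
    rw [Set.indicator_of_notMem hx', norm_zero, Real.zero_rpow h2.ne']

theorem Al_un (h : Refl bd cs B C mir κ) (J : Set T) (i : ℕ) (b : E i → ℂ) :
    ∀ e ∈ un C mir J i, Al cs C κ h.finite (par cs J) i b e = 0 := by
  rintro e ⟨he, t, ht, htJ⟩
  rw [Al_apply _ _ i b he]
  refine Finset.sum_involution (fun u _ => u * cs.simple t) ?_ ?_ ?_ ?_
  · intro u _
    have h1 : κ i e (u * cs.simple t) = κ i e u := by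
      rw [h.inj i e he e he]
      refine ⟨rfl, ?_⟩
      rw [mul_inv_rev, inv_mul_cancel_right]
      exact (par cs _).inv_mem (simple_mem_par cs ht)
    rw [h1, sg_mul_simple]
    ring
  · intro u _ _ h1
    have : cs.simple t = 1 := by simpa using h1
    have h2 := cs.length_simple t
    rw [this, cs.length_one] at h2
    exact absurd h2 (by norm_num)
  · intro u hu
    rw [mem_KJ] at hu ⊢
    exact (par cs J).mul_mem hu (simple_mem_par cs htJ)
  · intro u _
    rw [mul_assoc, cs.simple_mul_simple_self, mul_one]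

theorem cob_Al (h : Refl bd cs B C mir κ) (J : Set T) (i : ℕ) (b : E i → ℂ)
    (c : E (i + 1) → ℂ) (hc : ∀ e ∈ un C mir J (i + 1), c e = 0)
    (hb : ∀ x ∈ B (i + 1), Ph C κ (par cs Jᶜ) (i + 1) c x = cob bd i b x) :
    ∀ e ∈ C (i + 1), c e = cob bd i (Al cs C κ h.finite (par cs J) i b) e := by
  intro e he
  have h1 : cob bd i (Al cs C κ h.finite (par cs J) i b) e =
      ∑ u ∈ KJ h.finite (par cs J), sg cs u * cob bd i b (κ (i + 1) e u) := by
    rw [cob_congr bd i _ (fun f => ∑ u ∈ KJ h.finite (par cs J), sg cs u * b (κ i f u)) e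
      fun f hf => Al_apply _ _ i b (h.sub i e f he hf)]
    have h2 : ∀ u, cob bd i b (κ (i + 1) e u) = cob bd i (fun f => b (κ i f u)) e :=
      fun u => cob_smul h i b he u
    simp only [h2]
    unfold cob
    simp only [Finsupp.sum, Finset.mul_sum]
    rw [Finset.sum_comm]
    refine Finset.sum_congr rfl fun u _ => Finset.sum_congr rfl fun f _ => ?_
    ring
  rw [h1, Finset.sum_eq_single 1]
  · rw [← hb _ (h.mem _ e he 1), Ph_mem h _ _ c he (Subgroup.one_mem _), sg_one, one_mul]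
  · intro u hu hu1
    rw [← hb _ (h.mem _ e he u), Ph_notMem h J _ c hc he, mul_zero]
    intro hu2
    exact hu1 (par_inter_compl cs ((mem_KJ _ _ _).1 hu) hu2)
  · intro h1
    exact absurd ((mem_KJ _ _ _).2 (Subgroup.one_mem _)) h1

/-- **Job REFL.** -/
theorem refl : S_REFL := by
  intro E bd T M K _ cs B C mir κ h hB J
  refine ⟨fun c hc hc0 h0 e he => ?_, fun i c hc hc0 h0 => ?_⟩
  · have h1 := hB.1 (Ph C κ (par cs Jᶜ) 0 c) (Ph_memlp h J 0 c hc0 hc) (fun e he => he.elim)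
      (cob_Ph h J 0 c hc0 h0) (κ 0 e 1) (h.mem 0 e he 1)
    rwa [Ph_mem h _ 0 c he (Subgroup.one_mem _)] at h1
  · obtain ⟨b, hb, -, hb1⟩ := hB.2 i (Ph C κ (par cs Jᶜ) (i + 1) c)
      (Ph_memlp h J (i + 1) c hc0 hc) (fun e he => he.elim) (cob_Ph h J (i + 1) c hc0 h0)
    exact ⟨Al cs C κ h.finite (par cs J) i b, Al_memlp h _ i b hb, Al_un h J i b,
      cob_Al h J i b c hc0 hb1⟩

end

end Pool.Agent.U838.FT
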