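import Pool.Agent.Q169.FT.Stm

/-!
# Jobs SEQ and MV of project FT
-/

set_option autoImplicit false

open scoped ENNReal

namespace Pool.Agent.U838.FT

open Pool.Agent.Q169.FT

noncomputable section

theorem memlp_indicator {α : Type} {c : α → ℂ} (hc : Memℓp c 2) (S : Set α) :
    Memℓp (S.indicator c) 2 := by
  have h2 : 0 < (2 : ℝ≥0∞).toReal := by norm_num
  rw [memℓp_gen_iff h2] at hc ⊢
  refine Summable.of_nonneg_of_le (fun _ => by positivity) (fun e => ?_) hc
  refine Real.rpow_le_rpow (norm_nonneg _) ?_ h2.le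
  exact norm_indicator_le_norm_self _ _

variable {E : ℕ → Type} (bd : ∀ i, E (i + 1) → (E i →₀ ℤ))

theorem cob_congr (i : ℕ) (c c' : E i → ℂ) (e : E (i + 1))
    (h : ∀ f, bd i e f ≠ 0 → c f = c' f) : cob bd i c e = cob bd i c' e := by
  unfold cob
  refine Finsupp.sum_congr fun f hf => ?_
  rw [h f (Finsupp.mem_support_iff.1 hf)]

theorem cob_zero' (i : ℕ) (c : E i → ℂ) (e : E (i + 1))
    (h : ∀ f, bd i e f ≠ 0 → c f = 0) : cob bd i c e = 0 := by
  rw [cob_congr bd i c (fun _ => 0) e h]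
  unfold cob
  simp

theorem cob_sub (i : ℕ) (c c' : E i → ℂ) (e : E (i + 1)) :
    cob bd i (c - c') e = cob bd i c e - cob bd i c' e := by
  unfold cob
  rw [Finsupp.sum, Finsupp.sum, Finsupp.sum, ← Finset.sum_sub_distrib]
  refine Finset.sum_congr rfl fun f _ => ?_
  rw [Pi.sub_apply, mul_sub]

variable {bd}

/-- the first step: the coboundary of the extension by zero -/
theorem ext_step (hG : Good bd) {A : ∀ i, Set (E i)} (hA : IsSub bd A) (F : ∀ i, Set (E i))
    (hF : IsSub bd F) (i : ℕ) (c : E i → ℂ) (hc : Memℓp c 2)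
    (h : ∀ e ∈ F (i + 1), cob bd i c e = 0) :
    Memℓp ((A (i + 1)).indicator (cob bd i ((F i).indicator c))) 2 ∧
      (∀ e ∈ F (i + 1), (A (i + 1)).indicator (cob bd i ((F i).indicator c)) e = 0) ∧
      ∀ e ∈ A (i + 2),
        cob bd (i + 1) ((A (i + 1)).indicator (cob bd i ((F i).indicator c))) e = 0 := by
  refine ⟨memlp_indicator (hG.mem i _ (memlp_indicator hc _)) _, fun e he => ?_, fun e he => ?_⟩
  · by_cases h1 : e ∈ A (i + 1)
    · rw [Set.indicator_of_mem h1]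
      rw [cob_congr bd i _ c e fun f hf => Set.indicator_of_mem (hF i e f he hf) _]
      exact h e he
    · exact Set.indicator_of_notMem h1 _
  · rw [cob_congr bd (i + 1) _ (cob bd i ((F i).indicator c)) e fun f hf =>
      Set.indicator_of_mem (hA (i + 1) e f he hf) _]
    rw [hG.sq]
    rfl

/-- **Job SEQ.** -/
theorem seq : S_SEQ := by
  intro E bd hG A B hA hB hBA hAe hAB
  refine ⟨fun c hc _ h e he => ?_, fun i c hc _ h => ?_⟩
  · obtain ⟨h1, h2, h3⟩ := ext_step hG hA B hB 0 c hc h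
    obtain ⟨b, hb, hb0, hb1⟩ := hAB.2 0 _ h1 h2 h3
    have h4 := hAe.1 ((B 0).indicator c - b) ((memlp_indicator hc _).sub hb)
      (fun e he => he.elim) (fun e he => by
        rw [cob_sub, ← hb1 e he, Set.indicator_of_mem he, sub_self]) e (hBA 0 he)
    rw [Pi.sub_apply, Set.indicator_of_mem he, hb0 e he, sub_zero] at h4
    exact h4
  · obtain ⟨h1, h2, h3⟩ := ext_step hG hA B hB (i + 1) c hc h
    obtain ⟨b, hb, hb0, hb1⟩ := hAB.2 (i + 1) _ h1 h2 h3
    obtain ⟨c', hc', -, h4⟩ := hAe.2 i ((B (i + 1)).indicator c - b)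
      ((memlp_indicator hc _).sub hb)
      (fun e he => he.elim) (fun e he => by
        rw [cob_sub, ← hb1 e he, Set.indicator_of_mem he, sub_self])
    refine ⟨c', hc', fun e he => he.elim, fun e he => ?_⟩
    have h5 := h4 e (hBA _ he)
    rw [Pi.sub_apply, Set.indicator_of_mem he, hb0 e he, sub_zero] at h5
    exact h5

/-- **Job MV.** -/
theorem mv : S_MV := by
  intro E bd hG A₁ A₂ hA₁ hA₂ hE₁ hE₂ hE
  have hF : IsSub bd (fun i => A₁ i ∩ A₂ i) :=
    fun i e f he hf => ⟨hA₁ i e f he.1 hf, hA₂ i e f he.2 hf⟩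
  have key : ∀ (i : ℕ) (c : E i → ℂ), Memℓp c 2 →
      (∀ e ∈ A₁ (i + 1) ∩ A₂ (i + 1), cob bd i c e = 0) →
      ∃ b : E i → ℂ, Memℓp b 2 ∧ (∀ e ∈ A₂ (i + 1), cob bd i b e = 0) ∧
        ∀ e ∈ A₁ (i + 1), cob bd i b e = cob bd i ((A₁ i ∩ A₂ i).indicator c) e := by
    intro i c hc h
    obtain ⟨h1, h2, h3⟩ := ext_step hG hA₁ _ hF i c hc h
    set d := (A₁ (i + 1)).indicator (cob bd i ((A₁ i ∩ A₂ i).indicator c)) with hd
    have h4 : ∀ e ∈ A₂ (i + 1), d e = 0 := by
      intro e he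
      by_cases h5 : e ∈ A₁ (i + 1)
      · exact h2 e ⟨h5, he⟩
      · exact Set.indicator_of_notMem h5 _
    obtain ⟨b, hb, -, hb1⟩ := hE.2 i d h1 (fun e he => he.elim) (by
      intro e he
      rcases he with he | he
      · exact h3 e he
      · exact cob_zero' bd _ _ _ fun f hf => h4 f (hA₂ _ e f he hf))
    refine ⟨b, hb, fun e he => ?_, fun e he => ?_⟩
    · rw [← hb1 e (Or.inr he), h4 e he]
    · rw [← hb1 e (Or.inl he), hd, Set.indicator_of_mem he]
  refine ⟨fun c hc _ h e he => ?_, fun i c hc _ h => ?_⟩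
  · obtain ⟨b, hb, h2, h1⟩ := key 0 c hc h
    have h3 := hE₂.1 b hb (fun e he => he.elim) h2 e he.2
    have h4 := hE₁.1 ((A₁ 0 ∩ A₂ 0).indicator c - b) ((memlp_indicator hc _).sub hb)
      (fun e he => he.elim) (fun e he => by rw [cob_sub, h1 e he, sub_self]) e he.1
    rw [Pi.sub_apply, Set.indicator_of_mem he, h3, sub_zero] at h4
    exact h4
  · obtain ⟨b, hb, h2, h1⟩ := key (i + 1) c hc h
    obtain ⟨a, ha, -, h3⟩ := hE₂.2 i b hb (fun e he => he.elim) h2
    have hb' : Memℓp (b - cob bd i a) 2 := hb.sub (hG.mem i a ha)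
    have h4 : ∀ e, cob bd (i + 1) (b - cob bd i a) e = cob bd (i + 1) b e := by
      intro e
      rw [cob_sub, hG.sq, Pi.zero_apply, sub_zero]
    obtain ⟨c', hc', -, h5⟩ := hE₁.2 i ((A₁ (i + 1) ∩ A₂ (i + 1)).indicator c - (b - cob bd i a))
      ((memlp_indicator hc _).sub hb') (fun e he => he.elim)
      (fun e he => by rw [cob_sub, h4, h1 e he, sub_self])
    refine ⟨c', hc', fun e he => he.elim, fun e he => ?_⟩
    have h6 := h5 e he.1
    rw [Pi.sub_apply, Set.indicator_of_mem he, Pi.sub_apply, ← h3 e he.2, sub_self, sub_zero] at h6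
    exact h6

end

end Pool.Agent.U838.FT
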